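import Pool.Agent.Q240.GC.Bridge
import Pool.Agent.Q240.GC.Lyap

/-!
Directional divergence of the Gaussian consensus process at criticality: if `λ₁(α, β, N) = 0`,
then for every nonzero direction `u`, almost surely `|u · X_i(t)| → ∞` for every particle and
`|u · μ(t)| → ∞` for the average.
-/

namespace Pool.Agent.Results.MP_21b2a2_pr.DirectionalDivergence

open MeasureTheory ProbabilityTheory Set Filter Pool.Agent.Q240.GC
open scoped ENNReal NNReal Topology RealInnerProductSpace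

/-- The top Lyapunov exponent, by its formula
`λ₁ = (1/2) [φ_{(N-1)/2}(N β² / (2ρ)) + log (2ρ / N)]` with `ρ = α (1 - β)²` and
`φ_m(x) = e^{-x} ∑_j x^j / j! ψ(j + m)`. -/
noncomputable def lam1 (α β : ℝ) (N : ℕ) : ℝ :=
  1 / 2 * (phi (((N : ℝ) - 1) / 2) (N * β ^ 2 / (2 * (α * (1 - β) ^ 2))) +
    Real.log (2 * (α * (1 - β) ^ 2) / N))

theorem result {Ω : Type*} {mΩ : MeasurableSpace Ω} (P : Measure Ω) [IsProbabilityMeasure P]
    (ℱ : Filtration ℕ mΩ) {N d : ℕ} (hN : 2 ≤ N) {α β : ℝ} (hα : 0 < α) (hβ : 0 ≤ β)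
    (hβ1 : β < 1) (hcrit : lam1 α β N = 0) (X : ℕ → Ω → State N d)
    (hX : IsConsensus P ℱ β (α * (1 - β) ^ 2) X) (u : EuclideanSpace ℝ (Fin d)) (hu : u ≠ 0) :
    ∀ᵐ ω ∂P, (∀ i : Fin N, Tendsto (fun t => |⟪u, X t ω i⟫|) atTop atTop) ∧
      Tendsto (fun t => |⟪u, rowMean (X t ω)⟫|) atTop atTop := by
  set ρ := α * (1 - β) ^ 2 with hρd
  have h1β : 0 < 1 - β := by linarith
  have hρ : 0 < ρ := by positivity
  have hN0 : 0 < N := by omega
  obtain ⟨e0, he0, hb0⟩ := exists_unit hN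
  have hchain := hX.chain hρ.le hu
  have hσ : 0 < √(ρ / N) := by
    have : (0 : ℝ) < N := by exact_mod_cast hN0
    positivity
  have hc : ∫ h, Z β (√(ρ / N)) e0 h ∂(stdGaussian (E N)) = 0 := by
    rw [lyap_eq hN hβ hβ1.le hρ he0 hb0]
    exact hcrit
  have hcoord : ∀ i : Fin N, ∀ᵐ ω ∂P, Tendsto (fun t => |⟪u, X t ω i⟫|) atTop atTop := by
    intro i
    have m1 : Measurable (fun y : E N => y i) := by fun_prop
    have := hchain.diverge hN hβ hβ1 hσ he0 hb0 hc (ℓ := fun y : E N => y i) m1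
      (fun x b => by simp)
    simpa using this
  have hmean : ∀ᵐ ω ∂P, Tendsto (fun t => |⟪u, rowMean (X t ω)⟫|) atTop atTop := by
    have := hchain.diverge hN hβ hβ1 hσ he0 hb0 hc (ℓ := mean) measurable_mean
      (fun x b => by rw [mean_add, mean_smul, mean_one hN0, mul_one])
    simpa [mean_pr] using this
  filter_upwards [ae_all_iff.2 hcoord, hmean] with ω h1 h2 using ⟨h1, h2⟩

end Pool.Agent.Results.MP_21b2a2_pr.DirectionalDivergence
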